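import Mathlib

/-!
# Null sets of small cardinality
-/

namespace Q211.HF

open Set Filter MeasureTheory Topology
open scoped ENNReal Cardinal

section transfer

variable (ν : Measure ℝ) [IsFiniteMeasure ν]

/-- The distribution function. -/
noncomputable def F (x : ℝ) : ℝ := (ν (Iic x)).toReal

theorem F_mono : Monotone (F ν) := fun x y h =>
  ENNReal.toReal_mono (measure_ne_top _ _) (measure_mono (Iic_subset_Iic.2 h))

theorem F_nonneg (x : ℝ) : 0 ≤ F ν x := ENNReal.toReal_nonneg

theorem F_le (x : ℝ) : F ν x ≤ (ν univ).toReal :=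
  ENNReal.toReal_mono (measure_ne_top _ _) (measure_mono (subset_univ _))

theorem F_atTop : Tendsto (F ν) atTop (𝓝 (ν univ).toReal) := by
  have h := tendsto_measure_Iic_atTop ν
  exact (ENNReal.tendsto_toReal (measure_ne_top _ _)).comp h

theorem F_sub {x y : ℝ} (h : x ≤ y) : F ν y - F ν x = (ν (Ioc x y)).toReal := by
  have h1 : ν (Iic y) = ν (Iic x) + ν (Ioc x y) := by
    rw [← measure_union _ measurableSet_Ioc, Iic_union_Ioc_eq_Iic h]
    exact Iic_disjoint_Ioc le_rfl
  unfold F
  rw [h1, ENNReal.toReal_add (measure_ne_top _ _) (measure_ne_top _ _)]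
  ring

theorem F_atBot : Tendsto (F ν) atBot (𝓝 0) := by
  have h : Tendsto (fun x : ℝ => ν (Iic x)) atBot (𝓝 (ν (⋂ x : ℝ, Iic x))) := by
    refine tendsto_measure_iInter_atBot (fun i => measurableSet_Iic.nullMeasurableSet)
      (fun i j hij => Iic_subset_Iic.2 hij) ⟨0, measure_ne_top _ _⟩
  have h2 : (⋂ x : ℝ, Iic x) = ∅ := by
    ext z
    simp only [mem_iInter, mem_Iic, mem_empty_iff_false, iff_false, not_forall, not_le]
    exact ⟨z - 1, by linarith⟩
  rw [h2, measure_empty] at h
  have h3 := (ENNReal.tendsto_toReal (a := 0) (by simp)).comp h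
  rw [ENNReal.toReal_zero] at h3
  exact h3

variable [NullSingletonClass ν]

theorem F_cont : Continuous (F ν) := by
  rw [Metric.continuous_iff]
  intro x ε hε
  have h := tendsto_measure_Icc ν x
  have h' : Tendsto (fun δ => (ν (Icc (x - δ) (x + δ))).toReal) (𝓝 (0:ℝ)) (𝓝 0) := by
    simpa [Function.comp_def] using (ENNReal.tendsto_toReal (by simp)).comp h
  obtain ⟨δ, hδ, hδ'⟩ := Metric.eventually_nhds_iff.1 (h'.eventually (gt_mem_nhds hε))
  refine ⟨δ, hδ, fun y hy => ?_⟩
  have h1 : (ν (Icc (x - |y-x|) (x + |y-x|))).toReal < ε := by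
    apply hδ'
    rw [Real.dist_eq, sub_zero, abs_abs, ← Real.dist_eq]
    exact hy
  have h2 : |F ν y - F ν x| ≤ (ν (Icc (x - |y-x|) (x + |y-x|))).toReal := by
    rcases le_total x y with hxy | hxy
    · rw [F_sub ν hxy, abs_of_nonneg ENNReal.toReal_nonneg]
      refine ENNReal.toReal_mono (measure_ne_top _ _) (measure_mono ?_)
      rintro z ⟨hz1, hz2⟩
      rw [abs_of_nonneg (sub_nonneg.2 hxy)]
      constructor <;> linarith
    · rw [abs_sub_comm, F_sub ν hxy, abs_of_nonneg ENNReal.toReal_nonneg]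
      refine ENNReal.toReal_mono (measure_ne_top _ _) (measure_mono ?_)
      rintro z ⟨hz1, hz2⟩
      rw [abs_of_nonpos (sub_nonpos.2 hxy)]
      constructor <;> linarith
  rw [Real.dist_eq]
  exact h2.trans_lt h1

theorem map_F : ν.map (F ν) = volume.restrict (Icc 0 (ν univ).toReal) := by
  have hm : Measurable (F ν) := (F_mono ν).measurable
  refine Measure.ext_of_Iic _ _ fun a => ?_
  rw [Measure.map_apply hm measurableSet_Iic, Measure.restrict_apply measurableSet_Iic]
  set M := (ν univ).toReal with hM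
  have hM0 : 0 ≤ M := ENNReal.toReal_nonneg
  rcases lt_or_ge a 0 with ha | ha
  · have h1 : F ν ⁻¹' Iic a = ∅ := by
      ext z; simp only [mem_preimage, mem_Iic, mem_empty_iff_false, iff_false, not_le]
      exact lt_of_lt_of_le ha (F_nonneg ν z)
    have h2 : Iic a ∩ Icc 0 M = ∅ := by
      ext z; simp only [mem_inter_iff, mem_Iic, mem_Icc, mem_empty_iff_false, iff_false]
      rintro ⟨h, h', _⟩; linarith
    rw [h1, h2]; simp
  rcases le_or_gt M a with hMa | hMa
  · have h1 : F ν ⁻¹' Iic a = univ := by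
      ext z; simp only [mem_preimage, mem_Iic, mem_univ, iff_true]
      exact (F_le ν z).trans hMa
    have h2 : Iic a ∩ Icc 0 M = Icc 0 M := by
      ext z; simp only [mem_inter_iff, mem_Iic, mem_Icc, and_iff_right_iff_imp]
      rintro ⟨_, h⟩; linarith
    rw [h1, h2, Real.volume_Icc, sub_zero, hM, ENNReal.ofReal_toReal (measure_ne_top _ _)]
  · have h2 : Iic a ∩ Icc 0 M = Icc 0 a := by
      ext z; simp only [mem_inter_iff, mem_Iic, mem_Icc]
      constructor
      · rintro ⟨h, h', _⟩; exact ⟨h', h⟩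
      · rintro ⟨h, h'⟩; exact ⟨h', h, by linarith⟩
    rw [h2, Real.volume_Icc, sub_zero]
    set T := F ν ⁻¹' Iic a with hT
    rcases T.eq_empty_or_nonempty with hTe | hTn
    · have h3 : ∀ x, a < F ν x := by
        intro x
        by_contra hx
        have : x ∈ T := not_lt.1 hx
        rw [hTe] at this
        exact this
      have h4 : a ≤ 0 := ge_of_tendsto (F_atBot ν) (Eventually.of_forall fun x => (h3 x).le)
      rw [hTe]; simp [h4]
    · have hTc : IsClosed T := isClosed_Iic.preimage (F_cont ν)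
      have hTb : BddAbove T := by
        obtain ⟨y, hy⟩ := ((F_atTop ν).eventually (lt_mem_nhds hMa)).exists
        refine ⟨y, fun z hz => ?_⟩
        by_contra hzy
        have := (F_mono ν) (not_le.1 hzy).le
        have h5 : F ν z ≤ a := hz
        linarith
      set s := sSup T with hs
      have hsT : s ∈ T := hTc.csSup_mem hTn hTb
      have hTI : T = Iic s := by
        ext z
        constructor
        · intro hz; exact le_csSup hTb hz
        · intro hz; exact ((F_mono ν) hz).trans hsT
      have hFs : F ν s = a := by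
        refine le_antisymm hsT ?_
        have h6 : ∀ᶠ y in 𝓝[>] s, a ≤ F ν y := by
          filter_upwards [self_mem_nhdsWithin] with y hy
          by_contra hc
          have : y ∈ T := (not_le.1 hc).le
          exact absurd (le_csSup hTb this) (not_le.2 hy)
        have h7 : Tendsto (F ν) (𝓝[>] s) (𝓝 (F ν s)) :=
          ((F_cont ν).tendsto s).mono_left nhdsWithin_le_nhds
        exact ge_of_tendsto h7 h6
      rw [hTI, ← hFs]
      unfold F
      rw [ENNReal.ofReal_toReal (measure_ne_top _ _)]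

/-- If all sets of reals of size `< κ` are Lebesgue null, then they are null for all finite
diffuse Borel measures. -/
theorem null_of_card_lt {κ : Cardinal.{0}} (hκ : ∀ S : Set ℝ, #S < κ → volume S = 0)
    {S : Set ℝ} (hS : #S < κ) : ν S = 0 := by
  have hm : Measurable (F ν) := (F_mono ν).measurable
  have h1 : volume (F ν '' S) = 0 := hκ _ (Cardinal.mk_image_le.trans_lt hS)
  have h2 : (ν.map (F ν)) (F ν '' S) = 0 := by
    rw [map_F]
    exact Measure.absolutelyContinuous_of_le Measure.restrict_le_self h1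
  have h3 := (Measure.le_map_apply hm.aemeasurable (F ν '' S)).trans (le_of_eq h2)
  exact measure_mono_null (subset_preimage_image _ _) (le_antisymm h3 bot_le)

end transfer

/-- There is a non-null set of reals in `[0,1)` of minimal cardinality `κ`, enumerated in
order type `κ`. -/
theorem exists_min : ∃ (κ : Cardinal.{0}) (x : κ.ord.ToType → ℝ),
    (∀ S : Set ℝ, #S < κ → volume S = 0) ∧ (∀ α, x α ∈ Ico (0:ℝ) 1) ∧ volume (range x) ≠ 0 := by
  have hne : {c : Cardinal.{0} | ∃ S : Set ℝ, #S = c ∧ volume S ≠ 0}.Nonempty :=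
    ⟨_, univ, rfl, by simp⟩
  obtain ⟨S, hS, hSv⟩ := csInf_mem hne
  set κ := sInf {c : Cardinal.{0} | ∃ S : Set ℝ, #S = c ∧ volume S ≠ 0} with hκ
  have hmin : ∀ S : Set ℝ, #S < κ → volume S = 0 := by
    intro S hS
    by_contra h
    exact absurd (csInf_le' (s := {c : Cardinal.{0} | ∃ S : Set ℝ, #S = c ∧ volume S ≠ 0})
      ⟨S, rfl, h⟩) (not_le.2 hS)
  have hU : S = ⋃ n : ℤ, S ∩ Ico (n:ℝ) (n+1) := by
    rw [← inter_iUnion, iUnion_Ico_intCast, inter_univ]
  obtain ⟨n, hn⟩ : ∃ n : ℤ, volume (S ∩ Ico (n:ℝ) (n+1)) ≠ 0 := by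
    by_contra h
    push Not at h
    apply hSv
    rw [hU]
    exact measure_iUnion_null h
  set T : Set ℝ := (fun x : ℝ => x - n) '' (S ∩ Ico (n:ℝ) (n+1)) with hT
  have hTv : volume T ≠ 0 := by
    have e : T = (fun x : ℝ => x + n) ⁻¹' (S ∩ Ico (n:ℝ) (n+1)) := by
      ext z
      simp only [hT, mem_image, mem_preimage]
      constructor
      · rintro ⟨w, hw, rfl⟩; simpa using hw
      · intro h; exact ⟨_, h, by ring⟩
    rw [e, measure_preimage_add_right]
    exact hn
  have hTc : #T = κ := by
    refine le_antisymm ?_ ?_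
    · rw [← hS]
      exact Cardinal.mk_image_le.trans (Cardinal.mk_le_mk_of_subset inter_subset_left)
    · by_contra h
      exact hTv (hmin T (not_le.1 h))
  have hc : #(κ.ord.ToType) = #T := by rw [hTc]; simp
  obtain ⟨e⟩ := Cardinal.eq.1 hc
  refine ⟨κ, fun α => (e α : ℝ), hmin, fun α => ?_, ?_⟩
  · obtain ⟨w, hw, hw'⟩ := (e α).2
    change (e α : ℝ) ∈ Ico (0:ℝ) 1
    rw [← hw']
    constructor
    · have := hw.2.1; simp only [sub_nonneg]; exact this
    · have := hw.2.2; simp only; linarith
  · have : range (fun α => (e α : ℝ)) = T := by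
      ext z
      constructor
      · rintro ⟨α, rfl⟩; exact (e α).2
      · intro hz; exact ⟨e.symm ⟨z, hz⟩, by simp⟩
    rw [this]; exact hTv

end Q211.HF
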