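import Pool.Agent.Q211.HF.Digits
import Pool.Agent.Q211.HF.Null

/-!
# The construction: a universally null set of reals that is large in the sense of cylinders
-/

namespace Q211.HF

open Set Filter MeasureTheory Topology
open scoped ENNReal Cardinal

/-- The universal nullness argument (Fubini). -/
theorem univ_null {κ : Cardinal.{0}} (x z : κ.ord.ToType → ℝ)
    (hκ : ∀ S : Set ℝ, #S < κ → volume S = 0) (R : Set (ℝ × ℝ)) (hR : MeasurableSet R)
    (h0 : ∀ α, volume (Prod.mk (z α) ⁻¹' R) = 0) (h1 : ∀ β α, β < α → (z α, x β) ∈ R)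
    (hx : volume (range x) ≠ 0) (ν : Measure ℝ) [IsFiniteMeasure ν] [NullSingletonClass ν] :
    ν (range z) = 0 := by
  set Ω : Set ℝ := {w | volume (Prod.mk w ⁻¹' R) = 0} with hΩ
  have hΩm : MeasurableSet Ω :=
    (measurable_measure_prodMk_left (ν := (volume : Measure ℝ)) hR) (measurableSet_singleton 0)
  set Q : Set (ℝ × ℝ) := {p | p.1 ∈ Ω ∧ p ∈ R} with hQ
  have hQm : MeasurableSet Q := (measurable_fst hΩm).inter hR
  have hQ0 : (ν.prod (volume : Measure ℝ)) Q = 0 := by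
    rw [Measure.measure_prod_null hQm]
    refine Eventually.of_forall fun w => ?_
    by_cases hw : w ∈ Ω
    · have : Prod.mk w ⁻¹' Q ⊆ Prod.mk w ⁻¹' R := fun y hy => hy.2
      exact measure_mono_null this hw
    · have : Prod.mk w ⁻¹' Q = ∅ := by
        ext y; simp only [mem_preimage, mem_empty_iff_false, iff_false]
        intro hy; exact hw hy.1
      change volume (Prod.mk w ⁻¹' Q) = 0
      rw [this]; simp
  have hQ1 : ((volume : Measure ℝ).prod ν) (Prod.swap ⁻¹' Q) = 0 := by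
    rw [← Measure.map_apply measurable_swap hQm, Measure.prod_swap]
    exact hQ0
  have hQ2 := Measure.measure_ae_null_of_prod_null hQ1
  obtain ⟨β, hβ⟩ : ∃ β, ν (Prod.mk (x β) ⁻¹' (Prod.swap ⁻¹' Q)) = 0 := by
    by_contra hc
    push Not at hc
    apply hx
    refine measure_mono_null ?_ hQ2
    rintro _ ⟨β, rfl⟩
    exact hc β
  have hsub : range z ⊆ z '' (Iio β) ∪ {z β} ∪ (Prod.mk (x β) ⁻¹' (Prod.swap ⁻¹' Q)) := by
    rintro _ ⟨α, rfl⟩
    rcases lt_trichotomy α β with h | h | h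
    · left; left; exact ⟨α, h, rfl⟩
    · left; right; rw [h]; rfl
    · right
      exact ⟨h0 α, h1 β α h⟩
  refine measure_mono_null hsub (measure_union_null (measure_union_null ?_ ?_) hβ)
  · refine null_of_card_lt ν hκ (Cardinal.mk_image_le.trans_lt ?_)
    simpa using Cardinal.mk_Iio_lt β
  · exact measure_singleton _

/-- Digits of the code: even digits are `0`, odd digits are given by `c`. -/
def cbit (c : ℕ → Bool) (k : ℕ) : Bool := if k % 2 = 0 then false else c (k / 2)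

open Classical in
/-- Replace the digits of `x` at the positions `d 0, d 1, ...` by the digits of the code. -/
noncomputable def mix (d : ℕ → ℕ) (c : ℕ → Bool) (x : ℝ) (n : ℕ) : Bool :=
  if h : ∃ k, d k = n then cbit c h.choose else dig n x

theorem mix_at {d : ℕ → ℕ} (hd : StrictMono d) (c : ℕ → Bool) (x : ℝ) (k : ℕ) :
    mix d c x (d k) = cbit c k := by
  have h : ∃ k', d k' = d k := ⟨k, rfl⟩
  unfold mix
  rw [dif_pos h, hd.injective h.choose_spec]

theorem mix_off {d : ℕ → ℕ} (c : ℕ → Bool) (x : ℝ) {n : ℕ} (h : n ∉ range d) :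
    mix d c x n = dig n x := by
  unfold mix
  rw [dif_neg]
  exact h

theorem dig_mix {d : ℕ → ℕ} (hd : StrictMono d) (c : ℕ → Bool) (x : ℝ) (n : ℕ) :
    dig n (val (mix d c x)) = mix d c x n := by
  refine dig_val _ (fun n => ⟨d (2*n), ?_, ?_⟩) n
  · have := hd.id_le (2*n)
    simp only [id] at this
    omega
  · rw [mix_at hd]; simp [cbit]

open Classical in
/-- The code of a sequence of open sets. -/
noncomputable def codeOf (V : ℕ → Set ℝ) (m : ℕ) : Bool :=
  match (Encodable.decode m : Option (ℕ × ℚ × ℚ)) with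
  | none => false
  | some j => decide (Ioo (j.2.1 : ℝ) j.2.2 ⊆ V j.1)

/-- The position of the digit that tells whether the interval `q` is contained in `V k`. -/
def pos (d : ℕ → ℕ) (k : ℕ) (q : ℚ × ℚ) : ℕ := d (2 * Encodable.encode (k, q) + 1)

theorem dig_pos {d : ℕ → ℕ} (hd : StrictMono d) (V : ℕ → Set ℝ) (x : ℝ) (k : ℕ) (q : ℚ × ℚ) :
    dig (pos d k q) (val (mix d (codeOf V) x)) = true ↔ Ioo (q.1 : ℝ) q.2 ⊆ V k := by
  rw [dig_mix hd]
  unfold pos
  rw [mix_at hd]
  unfold cbit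
  rw [if_neg (by omega), show (2 * Encodable.encode (k, q) + 1) / 2 = Encodable.encode (k,q) by
    omega]
  unfold codeOf
  rw [Encodable.encodek]
  simp

/-- The decoding relation. -/
def Rel (d : ℕ → ℕ) : Set (ℝ × ℝ) :=
  {p | ∀ k : ℕ, ∃ q : ℚ × ℚ, dig (pos d k q) p.1 = true ∧ p.2 ∈ Ioo (q.1:ℝ) q.2}

theorem measurableSet_Rel (d : ℕ → ℕ) : MeasurableSet (Rel d) := by
  have e : Rel d = ⋂ k : ℕ, ⋃ q : ℚ × ℚ,
      ({p : ℝ × ℝ | dig (pos d k q) p.1 = true} ∩ {p : ℝ × ℝ | p.2 ∈ Ioo (q.1:ℝ) q.2}) := by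
    ext p; simp [Rel]
  rw [e]
  refine MeasurableSet.iInter fun k => MeasurableSet.iUnion fun q => ?_
  refine MeasurableSet.inter ?_ ?_
  · exact ((measurable_dig _).comp measurable_fst) (measurableSet_singleton true)
  · exact measurable_snd measurableSet_Ioo

theorem section_Rel {d : ℕ → ℕ} (hd : StrictMono d) (V : ℕ → Set ℝ) (hV : ∀ k, IsOpen (V k))
    (x : ℝ) : Prod.mk (val (mix d (codeOf V) x)) ⁻¹' (Rel d) = ⋂ k, V k := by
  ext y
  simp only [Rel, mem_preimage, mem_setOf_eq, mem_iInter]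
  constructor
  · intro h k
    obtain ⟨q, hq, hy⟩ := h k
    exact (dig_pos hd V x k q).1 hq hy
  · intro h k
    obtain ⟨u, hu, hyu, huV⟩ :=
      Real.isTopologicalBasis_Ioo_rat.exists_subset_of_mem_open (h k) (hV k)
    simp only [mem_iUnion, mem_singleton_iff, exists_prop] at hu
    obtain ⟨a, b, hab, rfl⟩ := hu
    exact ⟨(a, b), (dig_pos hd V x k (a,b)).2 huV, hyu⟩

/-- Every null set is contained in the intersection of a sequence of open sets, which is null. -/
theorem exists_open_cover {N : Set ℝ} (hN : volume N = 0) :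
    ∃ V : ℕ → Set ℝ, (∀ k, IsOpen (V k)) ∧ (∀ k, N ⊆ V k) ∧ volume (⋂ k, V k) = 0 := by
  have h : ∀ k : ℕ, ∃ V, N ⊆ V ∧ IsOpen V ∧ volume V < ((k:ℝ≥0∞) + 1)⁻¹ := by
    intro k
    refine Set.exists_isOpen_lt_of_lt N _ ?_
    rw [hN]
    simp
  choose V h1 h2 h3 using h
  refine ⟨V, h2, h1, ?_⟩
  refine le_antisymm ?_ bot_le
  have h4 : Tendsto (fun k : ℕ => (((k+1 : ℕ)):ℝ≥0∞)⁻¹) atTop (𝓝 0) :=
    ENNReal.tendsto_inv_nat_nhds_zero.comp (tendsto_add_atTop_nat 1)
  have h5 : Tendsto (fun k : ℕ => ((k:ℝ≥0∞) + 1)⁻¹) atTop (𝓝 0) := by simpa using h4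
  exact ge_of_tendsto h5
    (Eventually.of_forall fun k => (measure_mono (iInter_subset V k)).trans (h3 k).le)

open Classical in
/-- **The construction.** -/
theorem exists_family {d : ℕ → ℕ} (hd : StrictMono d) :
    ∃ (ι : Type) (x z : ι → ℝ), volume (range x) ≠ 0 ∧
      (∀ (ν : Measure ℝ) [IsFiniteMeasure ν] [NullSingletonClass ν], ν (range z) = 0) ∧
      (∀ i, z i ∈ Ico (0:ℝ) 1) ∧
      ∀ (n : ℕ) (k : ℤ), volume (x '' {i | ⌊(2:ℝ) ^ n * z i⌋ = k}) ≤
        ENNReal.ofReal (2 ^ (Nat.count (· ∈ range d) n) * (1/2) ^ n) := by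
  obtain ⟨κ, x, hκ, hx01, hx⟩ := exists_min
  have hN : ∀ α : κ.ord.ToType, volume (x '' Iio α) = 0 := by
    intro α
    refine hκ _ (Cardinal.mk_image_le.trans_lt ?_)
    simpa using Cardinal.mk_Iio_lt α
  choose V hVo hVs hV0 using fun α => exists_open_cover (hN α)
  refine ⟨κ.ord.ToType, x, fun α => val (mix d (codeOf (V α)) (x α)), hx, ?_, ?_, ?_⟩
  · intro ν _ _
    refine univ_null x _ hκ (Rel d) (measurableSet_Rel d) ?_ ?_ hx ν
    · intro α
      rw [section_Rel hd (V α) (hVo α)]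
      exact hV0 α
    · intro β α hβ
      have h1 : x β ∈ ⋂ k, V α k := mem_iInter.2 fun k => hVs α k ⟨β, hβ, rfl⟩
      rw [← section_Rel hd (V α) (hVo α) (x α)] at h1
      exact h1
  · intro α
    refine ⟨val_nonneg _, val_lt_one _ (m := d 0) ?_⟩
    rw [mix_at hd]; simp [cbit]
  · intro n k
    rcases (({i | ⌊(2:ℝ) ^ n * val (mix d (codeOf (V i)) (x i))⌋ = k} :
      Set κ.ord.ToType)).eq_empty_or_nonempty with he | ⟨α, hα⟩
    · rw [he]; simp
    · refine (measure_mono ?_).trans (volume_Pres (range d) (fun i => dig i (x α)) n)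
      rintro _ ⟨β, hβ, rfl⟩
      refine ⟨hx01 β, fun i hi hiD => ?_⟩
      have h1 : ⌊(2:ℝ) ^ n * val (mix d (codeOf (V β)) (x β))⌋ =
          ⌊(2:ℝ) ^ n * val (mix d (codeOf (V α)) (x α))⌋ := by
        rw [mem_setOf_eq] at hα hβ; rw [hα, hβ]
      have h2 := dig_congr h1 i hi
      rw [dig_mix hd, dig_mix hd, mix_off _ _ hiD, mix_off _ _ hiD] at h2
      exact h2

end Q211.HF
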