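import Mathlib

/-!
# Hausdorff measures with a gauge function: literal definitions and the link with Mathlib
-/

namespace Q211.HF

open Set Filter MeasureTheory Topology
open scoped ENNReal

/-- A gauge function: nondecreasing and right-continuous on `[0,∞)`, with `f 0 = 0`
and `f t > 0` for `t > 0` (the values of `f` at negative arguments play no role). -/
structure IsGauge (f : ℝ → ℝ) : Prop where
  mono : ∀ s t, 0 ≤ s → s ≤ t → f s ≤ f t
  rightCont : ∀ t, 0 ≤ t → ContinuousWithinAt f (Set.Ici t) t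
  zero : f 0 = 0
  pos : ∀ t, 0 < t → 0 < f t

/-- `H^f_δ(A)`: the infimum of `∑ f (diam U i)` over countable covers of `A` by (bounded) sets
of diameter at most `δ`. -/
noncomputable def Hd (f : ℝ → ℝ) (δ : ℝ) (A : Set ℝ) : ℝ≥0∞ :=
  ⨅ (U : ℕ → Set ℝ) (_ : A ⊆ ⋃ i, U i)
    (_ : ∀ i, Bornology.IsBounded (U i) ∧ Metric.diam (U i) ≤ δ),
      ∑' i, ENNReal.ofReal (f (Metric.diam (U i)))

/-- `H^f(A)`: the limit of `H^f_δ(A)` as `δ → 0+`, which is the supremum over all `δ > 0`,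
see `tendsto_Hd`. -/
noncomputable def H (f : ℝ → ℝ) (A : Set ℝ) : ℝ≥0∞ :=
  ⨆ (δ : ℝ) (_ : 0 < δ), Hd f δ A

theorem Hd_anti (f : ℝ → ℝ) (A : Set ℝ) {δ ε : ℝ} (h : δ ≤ ε) : Hd f ε A ≤ Hd f δ A := by
  unfold Hd
  refine le_iInf fun U => le_iInf fun hU => le_iInf fun hd => ?_
  exact iInf_le_of_le U (iInf_le_of_le hU (iInf_le_of_le (fun i => ⟨(hd i).1, (hd i).2.trans h⟩)
    le_rfl))

theorem Hd_le_H (f : ℝ → ℝ) (A : Set ℝ) {δ : ℝ} (h : 0 < δ) : Hd f δ A ≤ H f A :=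
  le_iSup_of_le δ (le_iSup_of_le h le_rfl)

/-- `H f A` is the limit of `Hd f δ A` as `δ → 0+`. -/
theorem tendsto_Hd (f : ℝ → ℝ) (A : Set ℝ) :
    Tendsto (fun δ => Hd f δ A) (𝓝[>] 0) (𝓝 (H f A)) := by
  refine tendsto_order.2 ⟨fun a ha => ?_, fun a ha => ?_⟩
  · obtain ⟨δ, hδ⟩ := lt_iSup_iff.1 ha
    obtain ⟨hδ0, hδ⟩ := lt_iSup_iff.1 hδ
    filter_upwards [Ioc_mem_nhdsGT hδ0] with ε hε
    exact hδ.trans_le (Hd_anti f A hε.2)
  · filter_upwards [self_mem_nhdsWithin] with ε hε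
    exact (Hd_le_H f A hε).trans_lt ha

/-- The gauge as a function on extended nonnegative reals. -/
noncomputable def gm (f : ℝ → ℝ) (t : ℝ≥0∞) : ℝ≥0∞ := ENNReal.ofReal (f t.toReal)

theorem gm_zero {f : ℝ → ℝ} (hf : IsGauge f) : gm f 0 = 0 := by
  simp [gm, hf.zero]

theorem H_eq {f : ℝ → ℝ} (hf : IsGauge f) (A : Set ℝ) :
    H f A = Measure.mkMetric (gm f) A := by
  rw [Measure.mkMetric_apply]
  have key : ∀ (U : Set ℝ), ENNReal.ofReal (f (Metric.diam U)) =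
      ⨆ _ : U.Nonempty, gm f (Metric.ediam U) := by
    intro U
    rcases U.eq_empty_or_nonempty with rfl | hU
    · simp [hf.zero]
    · simp [hU, gm, Metric.diam]
  apply le_antisymm
  · refine iSup_le fun δ => iSup_le fun hδ => ?_
    refine le_iSup_of_le (ENNReal.ofReal δ) (le_iSup_of_le (by simpa using hδ) ?_)
    refine le_iInf fun U => le_iInf fun hU => le_iInf fun hd => ?_
    refine iInf_le_of_le U (iInf_le_of_le hU (iInf_le_of_le (fun i => ?_) ?_))
    · have h1 : Metric.ediam (U i) ≠ ⊤ := ne_top_of_le_ne_top ENNReal.ofReal_ne_top (hd i)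
      refine ⟨Metric.isBounded_iff_ediam_ne_top.2 h1, ?_⟩
      rw [Metric.diam]
      exact ENNReal.toReal_le_of_le_ofReal hδ.le (hd i)
    · exact le_of_eq (tsum_congr fun i => key (U i))
  · refine iSup_le fun r => iSup_le fun hr => ?_
    obtain ⟨δ, hδ, hδr⟩ : ∃ δ : ℝ, 0 < δ ∧ ENNReal.ofReal δ ≤ r := by
      rcases eq_or_ne r ⊤ with rfl | hr'
      · exact ⟨1, one_pos, le_top⟩
      · exact ⟨r.toReal, ENNReal.toReal_pos hr.ne' hr', by rw [ENNReal.ofReal_toReal hr']⟩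
    refine le_trans ?_ (Hd_le_H f A hδ)
    refine le_iInf fun U => le_iInf fun hU => le_iInf fun hd => ?_
    refine iInf_le_of_le U (iInf_le_of_le hU (iInf_le_of_le (fun i => ?_) ?_))
    · refine le_trans ?_ hδr
      have h1 : Metric.ediam (U i) ≠ ⊤ := Metric.isBounded_iff_ediam_ne_top.1 (hd i).1
      rw [← ENNReal.ofReal_toReal h1]
      exact ENNReal.ofReal_le_ofReal (hd i).2
    · exact le_of_eq (tsum_congr fun i => (key (U i)).symm)

end Q211.HF
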