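import Mathlib

/-!
# Binary digits of real numbers, prescribed digits
-/

namespace Q211.HF

open Set Filter MeasureTheory Topology
open scoped ENNReal

/-- The `n`-th binary digit (after the point) of a real number, as a Boolean. -/
noncomputable def dig (n : ℕ) (x : ℝ) : Bool := decide (⌊(2:ℝ) ^ (n+1) * x⌋ % 2 = 1)

/-- The 0/1 value of a Boolean. -/
def bit (b : Bool) : ℤ := if b then 1 else 0

theorem floor_succ (n : ℕ) (x : ℝ) :
    ⌊(2:ℝ) ^ (n+1) * x⌋ = 2 * ⌊(2:ℝ) ^ n * x⌋ + bit (dig n x) := by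
  have h1 := Int.floor_le ((2:ℝ) ^ n * x)
  have h2 := Int.lt_floor_add_one ((2:ℝ) ^ n * x)
  have h3 : (2:ℝ) ^ (n+1) * x = 2 * ((2:ℝ) ^ n * x) := by ring
  have h4 : 2 * ⌊(2:ℝ) ^ n * x⌋ ≤ ⌊(2:ℝ) ^ (n+1) * x⌋ := by
    rw [Int.le_floor, h3]; push_cast; linarith
  have h5 : ⌊(2:ℝ) ^ (n+1) * x⌋ < 2 * ⌊(2:ℝ) ^ n * x⌋ + 2 := by
    rw [Int.floor_lt, h3]; push_cast; linarith
  unfold dig bit
  by_cases h : ⌊(2:ℝ) ^ (n+1) * x⌋ % 2 = 1
  · simp only [h, decide_true, if_true]; omega
  · simp only [h, decide_false, Bool.false_eq_true, if_false]; omega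

theorem measurable_dig (n : ℕ) : Measurable (dig n) := by
  unfold dig
  have h1 : Measurable fun x : ℝ => ⌊(2:ℝ) ^ (n+1) * x⌋ :=
    Int.measurable_floor.comp (measurable_const.mul measurable_id)
  exact (Measurable.of_discrete (f := fun k : ℤ => decide (k % 2 = 1))).comp h1

/-- The real number with given digits. -/
noncomputable def val (b : ℕ → Bool) : ℝ := ∑' n, (if b n then (1:ℝ) else 0) * (1/2) ^ (n+1)

theorem hasSum_all : HasSum (fun n : ℕ => ((1:ℝ)/2) ^ (n+1)) 1 := by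
  have := hasSum_geometric_two' (1:ℝ)
  convert this using 2 with n
  rw [pow_succ, one_div, inv_pow]; ring

theorem summable_val (b : ℕ → Bool) :
    Summable fun n => (if b n then (1:ℝ) else 0) * (1/2) ^ (n+1) := by
  refine Summable.of_nonneg_of_le (fun n => ?_) (fun n => ?_) hasSum_all.summable
  · split_ifs <;> positivity
  · split_ifs
    · simp
    · simp

theorem val_nonneg (b : ℕ → Bool) : 0 ≤ val b :=
  tsum_nonneg fun n => by split_ifs <;> positivity

theorem val_lt_one (b : ℕ → Bool) {m : ℕ} (hm : b m = false) : val b < 1 := by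
  rw [← hasSum_all.tsum_eq]
  refine (summable_val b).tsum_lt_tsum (i := m) (fun n => ?_) ?_ hasSum_all.summable
  · split_ifs
    · simp
    · simp
  · simp [hm]

theorem val_rec (b : ℕ → Bool) : 2 * val b = (bit (b 0) : ℝ) + val (fun n => b (n+1)) := by
  unfold val
  rw [(summable_val b).tsum_eq_zero_add, mul_add, ← tsum_mul_left]
  congr 1
  · unfold bit; split_ifs <;> simp
  · refine tsum_congr fun n => ?_
    rw [pow_succ _ (n+1)]; ring

theorem pow_mul_val (b : ℕ → Bool) (n : ℕ) :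
    ∃ k : ℤ, (2:ℝ) ^ n * val b = k + val (fun i => b (n+i)) := by
  induction n with
  | zero => exact ⟨0, by simp⟩
  | succ n ih =>
      obtain ⟨k, hk⟩ := ih
      refine ⟨2 * k + bit (b n), ?_⟩
      have h := val_rec (fun i => b (n+i))
      have e : (fun i => b (n+1+i)) = (fun i => b (n+(i+1))) := by
        funext i; congr 1; ring
      rw [e, pow_succ, mul_comm ((2:ℝ)^n) 2, mul_assoc, hk, mul_add, h]
      push_cast
      simp only [add_zero]
      ring

theorem dig_val (b : ℕ → Bool) (hb : ∀ n, ∃ m, n ≤ m ∧ b m = false) (n : ℕ) :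
    dig n (val b) = b n := by
  obtain ⟨k, hk⟩ := pow_mul_val b n
  have h := val_rec (fun i => b (n+i))
  have h01 : 0 ≤ val (fun i => b (n+(i+1))) := val_nonneg _
  have h02 : val (fun i => b (n+(i+1))) < 1 := by
    obtain ⟨m, hm, hm'⟩ := hb (n+1)
    refine val_lt_one _ (m := m - (n+1)) ?_
    rw [← hm']; congr 1; omega
  have h3 : ⌊(2:ℝ) ^ (n+1) * val b⌋ = 2 * k + bit (b n) := by
    rw [Int.floor_eq_iff]
    have e : (2:ℝ) ^ (n+1) * val b = 2 * k + bit (b n) + val (fun i => b (n+(i+1))) := by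
      rw [pow_succ, mul_comm ((2:ℝ)^n) 2, mul_assoc, hk, mul_add, h]
      simp only [add_zero]
      ring
    rw [e]; push_cast
    constructor <;> linarith
  unfold dig
  rw [h3]
  cases hbn : b n
  · simp [bit]
  · simp [bit, Int.add_emod]

/-- Numbers in the same dyadic interval of level `n` have the same first `n` digits. -/
theorem dig_congr {n : ℕ} {x y : ℝ} (h : ⌊(2:ℝ) ^ n * x⌋ = ⌊(2:ℝ) ^ n * y⌋) :
    ∀ i, i < n → dig i x = dig i y := by
  have key : ∀ m, m ≤ n → ⌊(2:ℝ) ^ (n-m) * x⌋ = ⌊(2:ℝ) ^ (n-m) * y⌋ := by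
    intro m
    induction m with
    | zero => intro _; simpa using h
    | succ m ih =>
        intro hm
        have h1 := ih (by omega)
        have e : n - m = (n - (m+1)) + 1 := by omega
        rw [e, floor_succ, floor_succ] at h1
        have b1 : ∀ c : Bool, bit c = 0 ∨ bit c = 1 := by intro c; cases c <;> simp [bit]
        rcases b1 (dig (n-(m+1)) x) with h2 | h2 <;> rcases b1 (dig (n-(m+1)) y) with h3 | h3 <;>
          rw [h2, h3] at h1 <;> omega
  intro i hi
  have h1 := key (n - (i+1)) (by omega)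
  rw [show n - (n-(i+1)) = i + 1 by omega] at h1
  unfold dig
  rw [h1]

/-- The set of numbers in `[0,1)` whose digits outside `D` below `n` are prescribed. -/
def Pres (D : Set ℕ) (p : ℕ → Bool) (n : ℕ) : Set ℝ :=
  {x | x ∈ Ico (0:ℝ) 1 ∧ ∀ i, i < n → i ∉ D → dig i x = p i}

open Classical in
theorem exists_cover (D : Set ℕ) (p : ℕ → Bool) (n : ℕ) :
    ∃ V : Finset ℤ, V.card ≤ 2 ^ (Nat.count (· ∈ D) n) ∧
      ∀ x ∈ Pres D p n, ⌊(2:ℝ) ^ n * x⌋ ∈ V := by
  induction n with
  | zero =>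
      refine ⟨{0}, by simp, fun x hx => ?_⟩
      simp only [pow_zero, one_mul, Finset.mem_singleton]
      exact Int.floor_eq_zero_iff.2 hx.1
  | succ n ih =>
      obtain ⟨V, hV, hV'⟩ := ih
      by_cases hn : n ∈ D
      · refine ⟨V.image (fun v => 2*v + 0) ∪ V.image (fun v => 2 * v + 1), ?_, fun x hx => ?_⟩
        · refine (Finset.card_union_le _ _).trans ?_
          rw [Nat.count_succ, if_pos hn, pow_succ]
          have h1 := Finset.card_image_le (s := V) (f := fun v => 2*v + 0)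
          have h2 := Finset.card_image_le (s := V) (f := fun v => 2*v + 1)
          omega
        · have hx' : x ∈ Pres D p n := ⟨hx.1, fun i hi hiD => hx.2 i (by omega) hiD⟩
          have h1 := hV' x hx'
          rw [floor_succ]
          rw [Finset.mem_union, Finset.mem_image, Finset.mem_image]
          cases dig n x
          · left; exact ⟨_, h1, by simp [bit]⟩
          · right; exact ⟨_, h1, by simp [bit]⟩
      · refine ⟨V.image (fun v => 2*v + bit (p n)), ?_, fun x hx => ?_⟩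
        · refine Finset.card_image_le.trans ?_
          rw [Nat.count_succ, if_neg hn]
          simpa using hV
        · have hx' : x ∈ Pres D p n := ⟨hx.1, fun i hi hiD => hx.2 i (by omega) hiD⟩
          have h1 := hV' x hx'
          rw [floor_succ, hx.2 n (by omega) hn, Finset.mem_image]
          exact ⟨_, h1, rfl⟩

theorem volume_floor (n : ℕ) (v : ℤ) :
    volume {x : ℝ | ⌊(2:ℝ) ^ n * x⌋ = v} ≤ ENNReal.ofReal ((1/2) ^ n) := by
  have hp : (0:ℝ) < 2 ^ n := by positivity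
  have h1 : {x : ℝ | ⌊(2:ℝ) ^ n * x⌋ = v} ⊆ Ico ((v:ℝ) / 2 ^ n) ((v:ℝ) / 2 ^ n + (1/2) ^ n) := by
    intro x hx
    rw [mem_setOf_eq, Int.floor_eq_iff] at hx
    constructor
    · rw [div_le_iff₀ hp]; linarith [hx.1]
    · have e : (v:ℝ) / 2 ^ n + (1/2) ^ n = ((v:ℝ) + 1) / 2 ^ n := by
        rw [one_div, inv_pow, add_div, one_div]
      rw [e, lt_div_iff₀ hp]; linarith [hx.2]
  refine (measure_mono h1).trans ?_
  rw [Real.volume_Ico]
  simp

open Classical in
theorem volume_Pres (D : Set ℕ) (p : ℕ → Bool) (n : ℕ) :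
    volume (Pres D p n) ≤ ENNReal.ofReal (2 ^ (Nat.count (· ∈ D) n) * (1/2) ^ n) := by
  obtain ⟨V, hV, hV'⟩ := exists_cover D p n
  have h1 : Pres D p n ⊆ ⋃ v ∈ V, {x : ℝ | ⌊(2:ℝ) ^ n * x⌋ = v} := by
    intro x hx
    simp only [mem_iUnion, mem_setOf_eq, exists_prop]
    exact ⟨_, hV' x hx, rfl⟩
  calc volume (Pres D p n) ≤ volume (⋃ v ∈ V, {x : ℝ | ⌊(2:ℝ) ^ n * x⌋ = v}) := measure_mono h1
    _ ≤ ∑ v ∈ V, volume {x : ℝ | ⌊(2:ℝ) ^ n * x⌋ = v} := measure_biUnion_finset_le _ _
    _ ≤ ∑ v ∈ V, ENNReal.ofReal ((1/2) ^ n) := Finset.sum_le_sum fun v _ => volume_floor n v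
    _ = V.card * ENNReal.ofReal ((1/2) ^ n) := by simp
    _ ≤ ((2 ^ (Nat.count (· ∈ D) n) : ℕ) : ℝ≥0∞) * ENNReal.ofReal ((1/2) ^ n) := by
        gcongr
    _ = ENNReal.ofReal (2 ^ (Nat.count (· ∈ D) n) * (1/2) ^ n) := by
        rw [ENNReal.ofReal_mul (by positivity)]
        congr 1
        rw [← ENNReal.ofReal_natCast]
        push_cast
        rfl

end Q211.HF
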