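import Pool.Agent.Q211.HF.Def
import Pool.Agent.Q211.HF.Cons

/-!
# Sets without subsets of finite positive Hausdorff measure
-/

namespace Q211.HF

open Set Filter MeasureTheory Topology
open scoped ENNReal Cardinal

open Classical in
theorem count_le {d : ℕ → ℕ} (hd : StrictMono d) {n k : ℕ} (h : n ≤ d k) :
    Nat.count (· ∈ range d) n ≤ k := by
  rw [Nat.count_eq_card_filter_range]
  have h1 : (Finset.range n).filter (· ∈ range d) ⊆ (Finset.range k).image d := by
    intro m hm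
    rw [Finset.mem_filter, Finset.mem_range] at hm
    obtain ⟨hm1, i, rfl⟩ := hm
    exact Finset.mem_image_of_mem _ (Finset.mem_range.2 (hd.lt_iff_lt.1 (hm1.trans_le h)))
  refine (Finset.card_le_card h1).trans (Finset.card_image_le.trans ?_)
  simp

open Classical in
theorem exists_d {f : ℝ → ℝ} (h : Tendsto (fun t => f t / t) (𝓝[>] 0) atTop) :
    ∃ d : ℕ → ℕ, StrictMono d ∧ ∀ n, d 0 < n →
      (2:ℝ) ^ (Nat.count (· ∈ range d) n) ≤ f ((1/2) ^ (n+1)) * 2 ^ (n+1) := by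
  have h1 : Tendsto (fun n : ℕ => ((1:ℝ)/2) ^ (n+1)) atTop (𝓝[>] 0) := by
    refine tendsto_nhdsWithin_iff.2 ⟨?_, Eventually.of_forall fun n => ?_⟩
    · exact (tendsto_pow_atTop_nhds_zero_of_lt_one (by norm_num) (by norm_num)).comp
        (tendsto_add_atTop_nat 1)
    · simp only [mem_Ioi]; positivity
  have h2 := h.comp h1
  have h3 : ∀ k : ℕ, ∃ N, ∀ n, N ≤ n → (2:ℝ) ^ (k+1) ≤ f ((1/2) ^ (n+1)) * 2 ^ (n+1) := by
    intro k
    obtain ⟨N, hN⟩ := eventually_atTop.1 (h2.eventually (eventually_ge_atTop ((2:ℝ) ^ (k+1))))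
    refine ⟨N, fun n hn => ?_⟩
    have := hN n hn
    simp only [Function.comp_apply] at this
    rw [div_eq_mul_inv] at this
    have e : (((1:ℝ)/2) ^ (n+1))⁻¹ = 2 ^ (n+1) := by
      rw [one_div, inv_pow, inv_inv]
    rwa [e] at this
  choose N hN using h3
  refine ⟨fun k => k + (Finset.range (k+1)).sup N, ?_, ?_⟩
  · intro a b hab
    have : (Finset.range (a+1)).sup N ≤ (Finset.range (b+1)).sup N :=
      Finset.sup_mono (Finset.range_subset_range.2 (by omega))
    simp only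
    omega
  · set d : ℕ → ℕ := fun k => k + (Finset.range (k+1)).sup N with hdd
    have hd : StrictMono d := by
      intro a b hab
      have : (Finset.range (a+1)).sup N ≤ (Finset.range (b+1)).sup N :=
        Finset.sup_mono (Finset.range_subset_range.2 (by omega))
      simp only [hdd]
      omega
    intro n hn
    obtain ⟨k, hk⟩ : ∃ k, Nat.count (· ∈ range d) n = k + 1 := by
      refine Nat.exists_eq_succ_of_ne_zero ?_
      intro h0
      have h4 : Nat.count (· ∈ range d) (d 0 + 1) ≤ Nat.count (· ∈ range d) n :=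
        Nat.count_monotone _ hn
      rw [Nat.count_succ, if_pos ⟨0, rfl⟩] at h4
      omega
    rw [hk]
    apply hN
    have h5 : d k < n := by
      by_contra hc
      have := count_le hd (not_lt.1 hc)
      omega
    have h6 : N k ≤ (Finset.range (k+1)).sup N := Finset.le_sup (by simp)
    simp only [hdd] at h5
    omega

/-- A gauge applied to small numbers tends to `0`. -/
theorem IsGauge.tendsto {f : ℝ → ℝ} (hf : IsGauge f) : Tendsto f (𝓝[>] 0) (𝓝 0) := by
  have := hf.rightCont 0 le_rfl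
  rw [ContinuousWithinAt, hf.zero] at this
  exact this.mono_left (nhdsWithin_mono _ Ioi_subset_Ici_self)

theorem floor_near {n : ℕ} {w y : ℝ} (h : |y - w| ≤ (1/2) ^ n) :
    ⌊(2:ℝ) ^ n * y⌋ = ⌊(2:ℝ) ^ n * w⌋ - 1 ∨ ⌊(2:ℝ) ^ n * y⌋ = ⌊(2:ℝ) ^ n * w⌋ ∨
      ⌊(2:ℝ) ^ n * y⌋ = ⌊(2:ℝ) ^ n * w⌋ + 1 := by
  have hp : (0:ℝ) < 2 ^ n := by positivity
  have h1 : |2 ^ n * y - 2 ^ n * w| ≤ 1 := by
    rw [← mul_sub, abs_mul, abs_of_pos hp]
    calc (2:ℝ) ^ n * |y - w| ≤ 2 ^ n * (1/2) ^ n := by gcongr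
      _ = 1 := by rw [← mul_pow]; norm_num
  rw [abs_le] at h1
  have a1 := Int.floor_le ((2:ℝ) ^ n * y)
  have a2 := Int.lt_floor_add_one ((2:ℝ) ^ n * y)
  have b1 := Int.floor_le ((2:ℝ) ^ n * w)
  have b2 := Int.lt_floor_add_one ((2:ℝ) ^ n * w)
  have c1 : ⌊(2:ℝ) ^ n * y⌋ < ⌊(2:ℝ) ^ n * w⌋ + 2 := by
    have : ((⌊(2:ℝ) ^ n * y⌋ : ℤ) : ℝ) < ((⌊(2:ℝ) ^ n * w⌋ + 2 : ℤ) : ℝ) := by
      push_cast; linarith [h1.2]
    exact_mod_cast this
  have c2 : ⌊(2:ℝ) ^ n * w⌋ < ⌊(2:ℝ) ^ n * y⌋ + 2 := by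
    have : ((⌊(2:ℝ) ^ n * w⌋ : ℤ) : ℝ) < ((⌊(2:ℝ) ^ n * y⌋ + 2 : ℤ) : ℝ) := by
      push_cast; linarith [h1.1]
    exact_mod_cast this
  omega

open Classical in
/-- The mass estimate. -/
theorem H_pos {f : ℝ → ℝ} (hf : IsGauge f) {d : ℕ → ℕ}
    (hd : ∀ n, d 0 < n →
      (2:ℝ) ^ (Nat.count (· ∈ range d) n) ≤ f ((1/2) ^ (n+1)) * 2 ^ (n+1))
    {ι : Type} {x z : ι → ℝ} (hx : volume (range x) ≠ 0)
    (hxz : ∀ (n : ℕ) (k : ℤ), volume (x '' {i | ⌊(2:ℝ) ^ n * z i⌋ = k}) ≤
        ENNReal.ofReal (2 ^ (Nat.count (· ∈ range d) n) * (1/2) ^ n)) :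
    0 < H f (range z) := by
  have hA : ∀ (n : ℕ) (k : ℤ), d 0 < n → volume (x '' {i | ⌊(2:ℝ) ^ n * z i⌋ = k}) ≤
      2 * ENNReal.ofReal (f ((1/2) ^ (n+1))) := by
    intro n k hn
    refine (hxz n k).trans ?_
    rw [← ENNReal.ofReal_ofNat 2, ← ENNReal.ofReal_mul (by norm_num)]
    apply ENNReal.ofReal_le_ofReal
    have h1 := hd n hn
    have h2 : (0:ℝ) ≤ (1/2) ^ n := by positivity
    calc (2:ℝ) ^ (Nat.count (· ∈ range d) n) * (1/2) ^ n
        ≤ (f ((1/2) ^ (n+1)) * 2 ^ (n+1)) * (1/2) ^ n := by gcongr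
      _ = 2 * f ((1/2) ^ (n+1)) * (2 ^ n * (1/2) ^ n) := by ring
      _ = 2 * f ((1/2) ^ (n+1)) := by rw [← mul_pow]; norm_num
  have key : ∀ U : Set ℝ, Bornology.IsBounded U → Metric.diam U ≤ (1/2) ^ (d 0 + 1) →
      volume (x '' {i | z i ∈ U}) ≤ 6 * ENNReal.ofReal (f (Metric.diam U)) := by
    intro U hUb hUd
    rcases U.eq_empty_or_nonempty with rfl | ⟨w, hw⟩
    · simp
    rcases (Metric.diam_nonneg (s := U)).eq_or_lt with h0 | h0
    · -- a single point
      have hU : ∀ y ∈ U, y = w := by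
        intro y hy
        have := Metric.dist_le_diam_of_mem hUb hy hw
        rw [← h0] at this
        exact dist_le_zero.1 this
      have h1 : volume (x '' {i | z i ∈ U}) ≤ 0 := by
        have h2 : ∀ n, d 0 < n → volume (x '' {i | z i ∈ U}) ≤
            2 * ENNReal.ofReal (f ((1/2) ^ (n+1))) := by
          intro n hn
          refine (measure_mono (image_mono ?_)).trans (hA n ⌊(2:ℝ) ^ n * w⌋ hn)
          intro i hi
          rw [mem_setOf_eq, hU _ hi]
        have h3 : Tendsto (fun n : ℕ => ((1:ℝ)/2) ^ (n+1)) atTop (𝓝[>] 0) := by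
          refine tendsto_nhdsWithin_iff.2 ⟨?_, Eventually.of_forall fun n => ?_⟩
          · exact (tendsto_pow_atTop_nhds_zero_of_lt_one (by norm_num) (by norm_num)).comp
              (tendsto_add_atTop_nat 1)
          · simp only [mem_Ioi]; positivity
        have h4 : Tendsto (fun n : ℕ => 2 * ENNReal.ofReal (f ((1/2) ^ (n+1)))) atTop (𝓝 0) := by
          have h5 := ENNReal.tendsto_ofReal (hf.tendsto.comp h3)
          rw [ENNReal.ofReal_zero] at h5
          have h6 := ENNReal.Tendsto.const_mul (a := 2) h5 (Or.inr (by simp))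
          rw [mul_zero] at h6
          exact h6
        exact ge_of_tendsto h4 (eventually_atTop.2 ⟨d 0 + 1, fun n hn => h2 n hn⟩)
      exact h1.trans bot_le
    · -- positive diameter
      set t := Metric.diam U with ht
      have ht1 : t ≤ 1 := hUd.trans (pow_le_one₀ (by norm_num) (by norm_num))
      obtain ⟨n, hn1, hn2⟩ := exists_nat_pow_near_of_lt_one h0 ht1
        (by norm_num : (0:ℝ) < 1/2) (by norm_num : (1:ℝ)/2 < 1)
      have hn : d 0 < n := by
        have h1 : ((1:ℝ)/2) ^ (n+1) < (1/2) ^ (d 0 + 1) := hn1.trans_le hUd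
        have h2 := (pow_lt_pow_iff_right_of_lt_one₀ (by norm_num : (0:ℝ) < 1/2)
          (by norm_num : (1:ℝ)/2 < 1)).1 h1
        omega
      set k := ⌊(2:ℝ) ^ n * w⌋ with hk
      have hsub : x '' {i | z i ∈ U} ⊆ x '' {i | ⌊(2:ℝ) ^ n * z i⌋ = k - 1} ∪
          (x '' {i | ⌊(2:ℝ) ^ n * z i⌋ = k} ∪ x '' {i | ⌊(2:ℝ) ^ n * z i⌋ = k + 1}) := by
        rintro _ ⟨i, hi, rfl⟩
        have h1 : |z i - w| ≤ (1/2) ^ n := by
          have := Metric.dist_le_diam_of_mem hUb hi hw
          rw [Real.dist_eq] at this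
          exact this.trans hn2
        rcases floor_near h1 with h | h | h
        · left; exact ⟨i, h, rfl⟩
        · right; left; exact ⟨i, h, rfl⟩
        · right; right; exact ⟨i, h, rfl⟩
      have hft : ENNReal.ofReal (f ((1/2) ^ (n+1))) ≤ ENNReal.ofReal (f t) :=
        ENNReal.ofReal_le_ofReal (hf.mono _ _ (by positivity) hn1.le)
      calc volume (x '' {i | z i ∈ U}) ≤ _ := measure_mono hsub
        _ ≤ volume (x '' {i | ⌊(2:ℝ) ^ n * z i⌋ = k - 1}) +
            (volume (x '' {i | ⌊(2:ℝ) ^ n * z i⌋ = k}) +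
              volume (x '' {i | ⌊(2:ℝ) ^ n * z i⌋ = k + 1})) :=
            (measure_union_le _ _).trans (add_le_add le_rfl (measure_union_le _ _))
        _ ≤ 2 * ENNReal.ofReal (f t) + (2 * ENNReal.ofReal (f t) +
              2 * ENNReal.ofReal (f t)) := by
            refine add_le_add ?_ (add_le_add ?_ ?_) <;>
            exact (hA n _ hn).trans (by gcongr)
        _ = 6 * ENNReal.ofReal (f t) := by ring
  have hδ : (0:ℝ) < (1/2) ^ (d 0 + 1) := by positivity
  refine lt_of_lt_of_le ?_ (Hd_le_H f (range z) hδ)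
  have hlow : volume (range x) / 6 ≤ Hd f ((1/2) ^ (d 0 + 1)) (range z) := by
    unfold Hd
    refine le_iInf fun U => le_iInf fun hU => le_iInf fun hUd => ?_
    refine ENNReal.div_le_of_le_mul' ?_
    have h1 : range x ⊆ ⋃ j, x '' {i | z i ∈ U j} := by
      rintro _ ⟨i, rfl⟩
      obtain ⟨j, hj⟩ := mem_iUnion.1 (hU ⟨i, rfl⟩)
      exact mem_iUnion.2 ⟨j, i, hj, rfl⟩
    calc volume (range x) ≤ volume (⋃ j, x '' {i | z i ∈ U j}) := measure_mono h1
      _ ≤ ∑' j, volume (x '' {i | z i ∈ U j}) := measure_iUnion_le _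
      _ ≤ ∑' j, 6 * ENNReal.ofReal (f (Metric.diam (U j))) :=
          ENNReal.tsum_le_tsum fun j => key (U j) (hUd j).1 (hUd j).2
      _ = 6 * ∑' j, ENNReal.ofReal (f (Metric.diam (U j))) := ENNReal.tsum_mul_left
  refine lt_of_lt_of_le ?_ hlow
  exact ENNReal.div_pos hx (by simp)

theorem H_singleton {f : ℝ → ℝ} (hf : IsGauge f) (w : ℝ) : H f {w} = 0 := by
  unfold H
  refine le_antisymm (iSup_le fun δ => iSup_le fun hδ => ?_) bot_le
  unfold Hd
  refine iInf_le_of_le (fun _ => {w}) (iInf_le_of_le (by simp) (iInf_le_of_le (fun i => ?_) ?_))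
  · exact ⟨Bornology.isBounded_singleton, by simp [hδ.le]⟩
  · simp [hf.zero]

/-- Universally null sets have no subsets of finite positive `H^f`-measure. -/
theorem zero_or_top {f : ℝ → ℝ} (hf : IsGauge f) {Z : Set ℝ}
    (hZ : ∀ (ν : Measure ℝ) [IsFiniteMeasure ν] [NullSingletonClass ν], ν Z = 0)
    {A : Set ℝ} (hA : A ⊆ Z) : H f A = 0 ∨ H f A = ⊤ := by
  by_cases h : H f A = ⊤
  · exact Or.inr h
  left
  set μ : Measure ℝ := Measure.mkMetric (gm f) with hμ
  have hAμ : H f A = μ A := H_eq hf A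
  have hfin : μ A ≠ ⊤ := by rw [← hAμ]; exact h
  have hB : μ (toMeasurable μ A) = μ A := measure_toMeasurable A
  have : IsFiniteMeasure (μ.restrict (toMeasurable μ A)) := by
    refine ⟨?_⟩
    rw [Measure.restrict_apply_univ, hB]
    exact lt_top_iff_ne_top.2 hfin
  have : NullSingletonClass (μ.restrict (toMeasurable μ A)) := by
    refine ⟨fun w => ?_⟩
    refine le_antisymm ((Measure.restrict_le_self _).trans ?_) bot_le
    rw [hμ, ← H_eq hf, H_singleton hf]
  have h1 := measure_mono_null hA (hZ (μ.restrict (toMeasurable μ A)))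
  rw [Measure.restrict_apply' (measurableSet_toMeasurable _ _),
    inter_eq_left.2 (subset_toMeasurable μ A)] at h1
  rw [hAμ, h1]

/-- The case of gauges for which `f t / t` does not tend to infinity. -/
theorem exists_finite {f : ℝ → ℝ} (hf : IsGauge f)
    (h : ¬ Tendsto (fun t => f t / t) (𝓝[>] 0) atTop) {A : Set ℝ} (hA : 0 < H f A) :
    ∃ A₀ ⊆ A, 0 < H f A₀ ∧ H f A₀ < ⊤ := by
  obtain ⟨C, hC⟩ : ∃ C : ℝ, ∃ᶠ t in 𝓝[>] (0:ℝ), f t / t < C := by
    by_contra hc
    push Not at hc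
    apply h
    exact tendsto_atTop.2 fun C => hc C
  have hC0 : 0 < C := by
    obtain ⟨t, ht1, ht2⟩ := (hC.and_eventually self_mem_nhdsWithin).exists
    exact lt_of_le_of_lt (div_nonneg (hf.pos t ht2).le (le_of_lt ht2)) ht1
  -- the measure of a unit interval is finite
  have hI : ∀ n : ℤ, H f (Ico (n:ℝ) (n+1)) ≤ ENNReal.ofReal (2 * C) := by
    intro n
    refine iSup_le fun δ => iSup_le fun hδ => ?_
    have hmem : Ioo (0:ℝ) (min δ 1) ∈ 𝓝[>] (0:ℝ) :=
      Ioo_mem_nhdsGT (lt_min hδ one_pos)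
    obtain ⟨t, ht1, ht2⟩ := (hC.and_eventually hmem).exists
    have ht0 : 0 < t := ht2.1
    have htδ : t ≤ δ := ht2.2.le.trans (min_le_left _ _)
    have ht11 : t ≤ 1 := ht2.2.le.trans (min_le_right _ _)
    have hft : f t < C * t := by rwa [div_lt_iff₀ ht0] at ht1
    set N := ⌈1/t⌉₊ with hN
    have hN1 : 1/t ≤ N := Nat.le_ceil _
    have hN2 : (N:ℝ) < 1/t + 1 := Nat.ceil_lt_add_one (by positivity)
    unfold Hd
    refine iInf_le_of_le (fun i => if i < N then Icc ((n:ℝ) + i * t) (n + i*t + t) else ∅)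
      (iInf_le_of_le ?_ (iInf_le_of_le ?_ ?_))
    · intro y hy
      rw [mem_iUnion]
      have hy0 : 0 ≤ (y - n) / t := div_nonneg (by linarith [hy.1]) ht0.le
      refine ⟨⌊(y - n)/t⌋₊, ?_⟩
      have h1 : ⌊(y - n)/t⌋₊ < N := by
        rw [Nat.floor_lt hy0]
        refine lt_of_lt_of_le ?_ hN1
        exact div_lt_div_of_pos_right (by linarith [hy.2]) ht0
      rw [if_pos h1]
      have h2 := Nat.floor_le hy0
      have h3 := Nat.lt_floor_add_one ((y - n)/t)
      rw [le_div_iff₀ ht0] at h2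
      rw [div_lt_iff₀ ht0] at h3
      constructor
      · linarith
      · linarith
    · intro i
      by_cases hi : i < N
      · simp only [if_pos hi]
        refine ⟨Metric.isBounded_Icc _ _, ?_⟩
        rw [Real.diam_Icc (by linarith)]
        linarith
      · simp only [if_neg hi]
        exact ⟨Bornology.isBounded_empty, by simp [hδ.le]⟩
    · have h1 : ∀ i : ℕ, ENNReal.ofReal (f (Metric.diam
          (if i < N then Icc ((n:ℝ) + i * t) (n + i*t + t) else (∅ : Set ℝ)))) =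
          if i ∈ Finset.range N then ENNReal.ofReal (f t) else 0 := by
        intro i
        by_cases hi : i < N
        · rw [if_pos hi, if_pos (Finset.mem_range.2 hi), Real.diam_Icc (by linarith)]
          congr 2; ring
        · rw [if_neg hi, if_neg (by simpa using hi)]
          simp [hf.zero]
      rw [tsum_congr h1, tsum_eq_sum (s := Finset.range N) (fun i hi => if_neg hi),
        Finset.sum_congr rfl (fun i hi => if_pos hi), Finset.sum_const, Finset.card_range,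
        nsmul_eq_mul, ← ENNReal.ofReal_natCast, ← ENNReal.ofReal_mul (by positivity)]
      apply ENNReal.ofReal_le_ofReal
      calc (N:ℝ) * f t ≤ (1/t + 1) * (C * t) := by
            apply mul_le_mul hN2.le hft.le (hf.pos t ht0).le (by positivity)
        _ = C + C * t := by field_simp
        _ ≤ 2 * C := by nlinarith
  have hU : A = ⋃ n : ℤ, A ∩ Ico (n:ℝ) (n+1) := by
    rw [← inter_iUnion, iUnion_Ico_intCast, inter_univ]
  obtain ⟨n, hn⟩ : ∃ n : ℤ, H f (A ∩ Ico (n:ℝ) (n+1)) ≠ 0 := by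
    by_contra hc
    push Not at hc
    apply hA.ne'
    rw [H_eq hf, hU]
    refine measure_iUnion_null fun n => ?_
    rw [← H_eq hf]
    exact hc n
  refine ⟨A ∩ Ico (n:ℝ) (n+1), inter_subset_left, pos_iff_ne_zero.2 hn, ?_⟩
  have h2 : H f (A ∩ Ico (n:ℝ) (n+1)) ≤ H f (Ico (n:ℝ) (n+1)) := by
    rw [H_eq hf, H_eq hf]; exact measure_mono inter_subset_right
  exact (h2.trans (hI n)).trans_lt ENNReal.ofReal_lt_top

/-- The case of gauges for which `f t / t` tends to infinity. -/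
theorem exists_bad {f : ℝ → ℝ} (hf : IsGauge f)
    (h : Tendsto (fun t => f t / t) (𝓝[>] 0) atTop) :
    ∃ Z : Set ℝ, Z ⊆ Ico 0 1 ∧
      (∀ (ν : Measure ℝ) [IsFiniteMeasure ν] [NullSingletonClass ν], ν Z = 0) ∧
      0 < H f Z := by
  obtain ⟨d, hd, hd'⟩ := exists_d h
  obtain ⟨ι, x, z, hx, hν, hz, hxz⟩ := exists_family hd
  refine ⟨range z, ?_, fun ν _ _ => hν ν, H_pos hf hd' hx hxz⟩
  rintro _ ⟨i, rfl⟩
  exact hz i

theorem isGauge_sqrt : IsGauge Real.sqrt where
  mono := fun s t _ h => Real.sqrt_le_sqrt h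
  rightCont := fun t _ => Real.continuous_sqrt.continuousWithinAt
  zero := Real.sqrt_zero
  pos := fun t h => Real.sqrt_pos.2 h

theorem tendsto_sqrt : Tendsto (fun t : ℝ => Real.sqrt t / t) (𝓝[>] 0) atTop := by
  have h1 : Tendsto (fun t : ℝ => (Real.sqrt t)⁻¹) (𝓝[>] 0) atTop := by
    refine tendsto_inv_nhdsGT_zero.comp (tendsto_nhdsWithin_iff.2 ⟨?_, ?_⟩)
    · have := (Real.continuous_sqrt.tendsto 0).mono_left (nhdsWithin_le_nhds (s := Ioi (0:ℝ)))
      simpa using this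
    · filter_upwards [self_mem_nhdsWithin] with t ht using Real.sqrt_pos.2 ht
  refine h1.congr' ?_
  filter_upwards [self_mem_nhdsWithin] with t ht
  have h2 : 0 < Real.sqrt t := Real.sqrt_pos.2 ht
  rw [eq_div_iff (ne_of_gt ht)]
  nth_rewrite 2 [← Real.mul_self_sqrt (le_of_lt ht)]
  field_simp

end Q211.HF
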